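import Pool.Agent.H10R3.SC.Stmts3

set_option autoImplicit false
set_option linter.unusedSectionVars false

open Finset

namespace Pool.Agent.H366R3.CX

open Pool.Agent.Helper347.Sab
open Pool.Agent.H444.FA
open Pool.Agent.H10R3.SC

section

variable {V E : Type} [Fintype V] [DecidableEq V] [Fintype E] [DecidableEq E]

theorem mem_cut' (G : MGraph V E) (Y : Finset V) (e : E) :
    e ∈ cut G univ Y ↔ (∃ u, u ∈ G.ends e ∧ u ∈ Y) ∧ ∃ w, w ∈ G.ends e ∧ w ∉ Y := by
  simp [cut]

theorem mem_cut_erase_of_not (G : MGraph V E) (X : Finset V) (v : V) (e : E)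
    (he : v ∉ G.ends e) : e ∈ cut G univ (X.erase v) ↔ e ∈ cut G univ X := by
  rw [mem_cut', mem_cut']
  constructor
  · rintro ⟨⟨u, hu, huX⟩, w, hw, hwX⟩
    refine ⟨⟨u, hu, Finset.mem_of_mem_erase huX⟩, w, hw, ?_⟩
    intro h
    apply hwX
    refine Finset.mem_erase.2 ⟨?_, h⟩
    rintro rfl
    exact he hw
  · rintro ⟨⟨u, hu, huX⟩, w, hw, hwX⟩
    refine ⟨⟨u, hu, Finset.mem_erase.2 ⟨?_, huX⟩⟩, w, hw, ?_⟩
    · rintro rfl
      exact he hu
    · intro h
      exact hwX (Finset.mem_of_mem_erase h)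

theorem mem_cut_erase_of_mem (G : MGraph V E) (X : Finset V) (v : V) (hv : v ∈ X) (e : E)
    (he : v ∈ G.ends e) : e ∈ cut G univ (X.erase v) ↔ e ∉ cut G univ X := by
  obtain ⟨w, hw⟩ : ∃ w, G.ends e = s(v, w) := ⟨_, (Sym2.other_spec he).symm⟩
  have hvw : v ≠ w := by
    rintro rfl
    apply G.loopless e
    rw [hw]
    simp
  rw [mem_cut', mem_cut', hw]
  simp only [Sym2.mem_iff, Finset.mem_erase]
  by_cases hwX : w ∈ X
  · constructor
    · intro _
      rintro ⟨_, u, rfl | rfl, hu⟩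
      · exact hu hv
      · exact hu hwX
    · intro _
      exact ⟨⟨w, Or.inr rfl, fun h => hvw h.symm, hwX⟩, v, Or.inl rfl, fun h => h.1 rfl⟩
  · constructor
    · rintro ⟨⟨u, rfl | rfl, hu⟩, _⟩
      · exact absurd rfl hu.1
      · exact absurd hu.2 hwX
    · intro h
      exact absurd ⟨⟨v, Or.inl rfl, hv⟩, w, Or.inr rfl, hwX⟩ h

theorem erase : TErase := by
  intro V E _ _ _ _ G hG X v hv
  have h3 : (univ.filter fun e => v ∈ G.ends e).card = 3 := hG v
  have hA := Finset.card_filter_add_card_filter_not (s := cut G univ X)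
    (fun e => v ∈ G.ends e)
  have hB := Finset.card_filter_add_card_filter_not (s := cut G univ (X.erase v))
    (fun e => v ∈ G.ends e)
  have hC := Finset.card_filter_add_card_filter_not (s := univ.filter fun e => v ∈ G.ends e)
    (fun e => e ∈ cut G univ X)
  have e1 : ((univ.filter fun e => v ∈ G.ends e).filter fun e => e ∈ cut G univ X) =
      (cut G univ X).filter fun e => v ∈ G.ends e := by
    ext e
    simp only [Finset.mem_filter, Finset.mem_univ, true_and]
    tauto
  have e2 : ((univ.filter fun e => v ∈ G.ends e).filter fun e => ¬ e ∈ cut G univ X) =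
      (cut G univ (X.erase v)).filter fun e => v ∈ G.ends e := by
    ext e
    simp only [Finset.mem_filter, Finset.mem_univ, true_and]
    constructor
    · rintro ⟨h1, h2⟩
      exact ⟨(mem_cut_erase_of_mem G X v hv e h1).2 h2, h1⟩
    · rintro ⟨h1, h2⟩
      exact ⟨h2, (mem_cut_erase_of_mem G X v hv e h2).1 h1⟩
  have e3 : ((cut G univ (X.erase v)).filter fun e => ¬ v ∈ G.ends e) =
      (cut G univ X).filter fun e => ¬ v ∈ G.ends e := by
    ext e
    simp only [Finset.mem_filter]
    constructor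
    · rintro ⟨h1, h2⟩
      exact ⟨(mem_cut_erase_of_not G X v e h2).1 h1, h2⟩
    · rintro ⟨h1, h2⟩
      exact ⟨(mem_cut_erase_of_not G X v e h2).2 h1, h2⟩
  rw [e1, e2, h3] at hC
  rw [e3] at hB
  unfold dg
  omega

end

end Pool.Agent.H366R3.CX
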