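import Pool.Agent.H10R3.SC.Stmts3

set_option autoImplicit false
set_option linter.unusedSectionVars false

open Finset

namespace Pool.Agent.H366R3.CX

open Pool.Agent.Helper347.Sab
open Pool.Agent.H444.FA
open Pool.Agent.H10R3.SC

theorem pad : TPad := by
  intro V E _ _ _ _ G C X d y n Z hZ P U f hPU hf hpat
  obtain ⟨h1, h2, h3⟩ := hZ
  have hZl : ∀ i : Fin n, (Fin.append Z (fun _ : Fin 3 => (∅ : Finset E))) (Fin.castAdd 3 i) =
      Z i := fun i => Fin.append_left _ _ i
  have hZr : ∀ s : Fin 3, (Fin.append Z (fun _ : Fin 3 => (∅ : Finset E))) (Fin.natAdd n s) =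
      ∅ := fun i => Fin.append_right _ _ i
  have hinj : Function.Injective fun s : Fin 3 =>
      if s ∈ U then Fin.castAdd 3 (f s) else Fin.natAdd n s := by
    intro s t hst
    simp only at hst
    by_cases hs : s ∈ U <;> by_cases ht : t ∈ U
    · rw [if_pos hs, if_pos ht] at hst
      exact hf s hs t ht (Fin.castAdd_injective n 3 hst)
    · rw [if_pos hs, if_neg ht] at hst
      have := congrArg Fin.val hst
      simp only [Fin.val_castAdd, Fin.val_natAdd] at this
      have := (f s).2
      omega
    · rw [if_neg hs, if_pos ht] at hst
      have := congrArg Fin.val hst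
      simp only [Fin.val_castAdd, Fin.val_natAdd] at this
      have := (f t).2
      omega
    · rw [if_neg hs, if_neg ht] at hst
      have := congrArg Fin.val hst
      simp only [Fin.val_natAdd] at this
      exact Fin.ext (by omega)
  refine ⟨n + 3, Fin.append Z (fun _ => ∅), ⟨?_, ?_, ?_⟩, ⟨_, hinj⟩, ?_⟩
  · intro c
    refine Fin.addCases (fun i => ?_) (fun i => ?_) c
    · rw [hZl]
      exact h1 i
    · rw [hZr]
      exact Finset.empty_subset _
  · intro e he
    rw [← h2 e he]
    have : (univ.filter fun c : Fin (n + 3) =>
        e ∈ (Fin.append Z (fun _ : Fin 3 => (∅ : Finset E))) c) =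
        (univ.filter fun c : Fin n => e ∈ Z c).map (Fin.castAddEmb 3) := by
      ext c
      simp only [Finset.mem_filter, Finset.mem_univ, true_and, Finset.mem_map]
      refine Fin.addCases (fun i => ?_) (fun i => ?_) c
      · rw [hZl]
        constructor
        · intro h
          exact ⟨i, h, rfl⟩
        · rintro ⟨j, hj, hji⟩
          have : j = i := Fin.castAdd_injective n 3 hji
          rw [← this]
          exact hj
      · rw [hZr]
        constructor
        · intro h
          exact absurd h (Finset.notMem_empty _)
        · rintro ⟨j, hj, hji⟩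
          exfalso
          have := congrArg Fin.val hji
          simp at this
          have := j.2
          omega
    rw [this, Finset.card_map]
  · intro c v hv
    refine Fin.addCases (fun i => ?_) (fun i => ?_) c
    · rw [hZl]
      exact h3 i v hv
    · rw [hZr]
      simp [dg]
  · intro i
    ext c
    have hp : ∀ k : Fin n, k ∈ pat G y Z i ↔ ∃ s ∈ P i, f s = k := by
      intro k
      rw [hpat i, Finset.mem_image]
    simp only [pat, Finset.mem_filter, Finset.mem_univ, true_and, Finset.mem_map,
      Function.Embedding.coeFn_mk] at hp ⊢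
    refine Fin.addCases (fun k => ?_) (fun k => ?_) c
    · rw [hZl, hp k]
      constructor
      · rintro ⟨s, hs, rfl⟩
        refine ⟨s, hs, ?_⟩
        rw [if_pos (hPU i hs)]
      · rintro ⟨s, hs, hsk⟩
        rw [if_pos (hPU i hs)] at hsk
        exact ⟨s, hs, Fin.castAdd_injective n 3 hsk⟩
    · rw [hZr]
      constructor
      · intro h
        exfalso
        simp [dg] at h
      · rintro ⟨s, hs, hsk⟩
        exfalso
        rw [if_pos (hPU i hs)] at hsk
        have := congrArg Fin.val hsk
        simp only [Fin.val_castAdd, Fin.val_natAdd] at this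
        have := (f s).2
        omega

end Pool.Agent.H366R3.CX
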