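import Pool.Agent.H10R3.SC.Stmts3
import Pool.Agent.H444.FA.ExtL

set_option autoImplicit false
set_option linter.unusedSectionVars false

open Finset

namespace Pool.Agent.H366R3.CX

open Pool.Agent.Helper347.Sab
open Pool.Agent.H444.FA
open Pool.Agent.H10R3.SC

theorem read : TRead := by
  intro V E _ _ _ _ G C X d y x ℓ hcr a b g hgd hg T hgood
  obtain ⟨n, W, h1, h2, h3⟩ := hgood
  refine ⟨n, fun c => oldP (W c), fun k => univ.filter fun c => Sum.inr k ∈ W c,
    ⟨?_, ?_, ?_⟩, ?_, ?_, ?_⟩
  · intro c e he
    rw [mem_oldP] at he
    exact (inl_mem_inG _ _).1 (h1 c he)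
  · intro e he
    have h := h2 (Sum.inl e) ((inl_mem_inG _ _).2 he)
    have e1 : (univ.filter fun c : Fin n => e ∈ oldP (W c)) =
        univ.filter fun c : Fin n => (Sum.inl e : E ⊕ Fin b) ∈ W c := by
      ext c
      simp [mem_oldP]
    rw [e1, h]
    unfold mS
    have e2 : (Sum.inl e : E ⊕ Fin b) ∈ newD G C X T ↔ e ∈ C := by
      unfold newD
      rw [Finset.mem_union, mem_inE, Finset.mem_inter]
      constructor
      · rintro (h | h)
        · exact h.1
        · simp at h
      · intro h
        exact Or.inl ⟨h, he⟩
    simp only [e2]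
  · intro c v hv
    have h := h3 c (Sum.inl v)
    rw [dg_old] at h
    have e1 : (univ.filter fun j : Fin b => Sum.inr j ∈ W c ∧
        (Sum.inl v : V ⊕ Fin a) ∈ g j) = ∅ := by
      rw [Finset.filter_eq_empty_iff]
      rintro j _ ⟨_, hj⟩
      obtain ⟨i, hi⟩ := hgd.old j v hj
      exact hv i hi
    rw [e1, Finset.card_empty, add_zero] at h
    exact h
  · intro k
    have h := h2 (Sum.inr k) (inr_mem_inG _ _)
    rw [h]
    unfold mS
    have e2 : (Sum.inr k : E ⊕ Fin b) ∈ newD G C X T ↔ k ∈ T := by
      unfold newD
      rw [Finset.mem_union]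
      constructor
      · rintro (h | h)
        · exact absurd h (inr_notMem_inE _ _)
        · simpa using h
      · intro h
        exact Or.inr (by simpa using h)
    simp only [e2]
  · intro j k hk
    ext c
    simp only [pat, Finset.mem_filter, Finset.mem_univ, true_and]
    have h := h3 c (Sum.inl (y j))
    rw [dg_old] at h
    obtain ⟨k', hk'⟩ := Finset.card_eq_one.1 (hgd.leg j)
    have hkk : k = k' := by
      have : k ∈ (univ.filter fun k => (Sum.inl (y j) : V ⊕ Fin a) ∈ g k) := by
        simp [hk]
      rw [hk'] at this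
      exact Finset.mem_singleton.1 this
    subst hkk
    have e1 : (univ.filter fun j' : Fin b => Sum.inr j' ∈ W c ∧
        (Sum.inl (y j) : V ⊕ Fin a) ∈ g j') = if Sum.inr k ∈ W c then {k} else ∅ := by
      ext k2
      have h4 : k2 ∈ (univ.filter fun k => (Sum.inl (y j) : V ⊕ Fin a) ∈ g k) ↔ k2 = k := by
        rw [hk']
        exact Finset.mem_singleton
      simp only [Finset.mem_filter, Finset.mem_univ, true_and] at h4 ⊢
      rw [h4]
      split_ifs with h5
      · rw [Finset.mem_singleton]
        constructor
        · exact fun h => h.2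
        · rintro rfl
          exact ⟨h5, rfl⟩
      · constructor
        · rintro ⟨h6, rfl⟩
          exact absurd h6 h5
        · intro h
          exact absurd h (Finset.notMem_empty _)
    rw [e1] at h
    split_ifs at h with h5
    · rw [Finset.card_singleton] at h
      constructor
      · intro _
        exact h5
      · intro _
        rw [Nat.even_add_one, Nat.not_even_iff_odd] at h
        exact h
    · rw [Finset.card_empty, add_zero] at h
      constructor
      · intro h6
        exact absurd h (Nat.not_even_iff_odd.2 h6)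
      · intro h6
        exact absurd h6 h5
  · intro w c
    have h := h3 c (Sum.inr w)
    rw [dg_new] at h
    have e1 : (univ.filter fun k : Fin b => (Sum.inr w : V ⊕ Fin a) ∈ g k ∧
        c ∈ (univ.filter fun c : Fin n => (Sum.inr k : E ⊕ Fin b) ∈ W c)) =
        univ.filter fun j : Fin b => Sum.inr j ∈ W c ∧ (Sum.inr w : V ⊕ Fin a) ∈ g j := by
      ext k
      simp only [Finset.mem_filter, Finset.mem_univ, true_and]
      exact and_comm
    rw [e1]
    exact h

end Pool.Agent.H366R3.CX
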